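import Pool.Agent.helper47.SC.Spec

open scoped Topology ContDiff
open Set Filter Metric MeasureTheory

namespace Pool.Agent.SC

theorem REC_seq {α : Type*} [Inhabited α] (R : ℕ → (ℕ → α) → α → Prop)
    (hloc : ∀ n z z' w, (∀ i < n, z i = z' i) → R n z w → R n z' w)
    (hex : ∀ n z, (∀ i < n, R i z (z i)) → ∃ w, R n z w) :
    ∃ z : ℕ → α, ∀ n, R n z (z n) := by
  classical
  let g : ℕ → (ℕ → α) := fun n => Nat.rec (fun _ => default)
    (fun n gn => Function.update gn n (if h : ∃ w, R n gn w then h.choose else default)) n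
  have hstep : ∀ n, g (n + 1) = Function.update (g n) n
      (if h : ∃ w, R n (g n) w then h.choose else default) := fun n => rfl
  have hstab : ∀ n i, i < n → g n i = g (i + 1) i := by
    intro n
    induction n with
    | zero => intro i hi; omega
    | succ n ih =>
      intro i hi
      rcases Nat.lt_succ_iff_lt_or_eq.mp hi with h | h
      · rw [hstep, Function.update_of_ne h.ne, ih i h]
      · subst h; rfl
  refine ⟨fun n => g (n + 1) n, ?_⟩
  intro n
  induction n using Nat.strong_induction_on with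
  | _ n ih =>
    have h1 : ∀ i < n, R i (g n) (g n i) := by
      intro i hi
      rw [hstab n i hi]
      exact hloc i _ _ _ (fun j hj => (hstab n j (hj.trans hi)).symm) (ih i hi)
    have ex := hex n (g n) h1
    have h0 : g (n + 1) n = ex.choose := by
      rw [hstep, Function.update_self, dif_pos ex]
    have h2 : R n (g n) (g (n + 1) n) := by
      rw [h0]; exact ex.choose_spec
    exact hloc n (g n) _ _ (fun i hi => hstab n i hi) h2

/-- the admissible set -/
def REC_S (n : ℕ) (z : ℕ → C3 × ℝ) : Set C3 :=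
  {t | t ∈ closedBall (0 : C3) (1 / 16) ∧
    ∀ i < n, ‖t.2 - (z i).1.2‖ ≤ (z i).2 * ‖t.1 - (z i).1.1‖ ∧ t.1 ≠ (z i).1.1}

theorem REC_S_congr (n : ℕ) (z z' : ℕ → C3 × ℝ) (h : ∀ i < n, z i = z' i) :
    REC_S n z = REC_S n z' := by
  ext t
  constructor
  · rintro ⟨h1, h2⟩
    exact ⟨h1, fun i hi => by rw [← h i hi]; exact h2 i hi⟩
  · rintro ⟨h1, h2⟩
    exact ⟨h1, fun i hi => by rw [h i hi]; exact h2 i hi⟩

theorem REC_null (a : ℂ) : volume {t : C3 | t.1 = a} = 0 := by
  have h1 : {t : C3 | t.1 = a} = ({a} : Set ℂ) ×ˢ (univ : Set (ℂ × ℂ)) := by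
    ext t; simp
  rw [h1, Measure.volume_eq_prod, Measure.prod_prod]
  simp

theorem REC_nonempty (h1 : RPD_stmt) (n : ℕ) (z : ℕ → C3 × ℝ)
    (hz1 : ∀ i < n, (z i).1 ∈ closedBall (0 : C3) (1 / 16))
    (hz2 : ∀ i < n, 4 * 2 ^ i ≤ (z i).2) : (REC_S n z).Nonempty := by
  by_contra hne
  rw [Set.not_nonempty_iff_eq_empty] at hne
  have hR := h1 (fun i => if i < n then (z i).1 else 0) (fun i => if i < n then (z i).2 else 4 * 2 ^ i)
    (by
      intro i
      by_cases hi : i < n
      · simp only [hi, if_true]; exact hz1 i hi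
      · simp only [hi, if_false]; exact mem_closedBall_self (by norm_num))
    (by
      intro i
      by_cases hi : i < n
      · simp only [hi, if_true]; exact hz2 i hi
      · simp only [hi, if_false]; exact le_rfl)
  set Bad : Set C3 := {t : C3 | t ∈ closedBall (0 : C3) (1 / 16) ∧
    ∃ i, (if i < n then (z i).2 else 4 * 2 ^ i) * ‖t.1 - (if i < n then (z i).1 else 0 : C3).1‖ <
      ‖t.2 - (if i < n then (z i).1 else 0 : C3).2‖} with hBad
  set Nul : Set C3 := ⋃ i : ℕ, {t : C3 | t.1 = (z i).1.1} with hNul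
  have hNul0 : volume Nul = 0 := by
    rw [hNul, measure_iUnion_null_iff]
    intro i
    exact REC_null _
  have hsub : closedBall (0 : C3) (1 / 16) ⊆ Bad ∪ Nul := by
    intro t ht
    by_contra hnot
    rw [mem_union, not_or] at hnot
    obtain ⟨hB, hN⟩ := hnot
    have : t ∈ REC_S n z := by
      refine ⟨ht, ?_⟩
      intro i hi
      constructor
      · by_contra hlt
        push Not at hlt
        apply hB
        refine ⟨ht, i, ?_⟩
        simp only [hi, if_true]
        exact hlt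
      · intro heq
        apply hN
        rw [hNul]
        exact mem_iUnion.2 ⟨i, heq⟩
    rw [hne] at this
    exact this
  have hle : volume (closedBall (0 : C3) (1 / 16)) ≤ volume (closedBall (0 : C3) (1 / 16)) / 2 := by
    calc volume (closedBall (0 : C3) (1 / 16)) ≤ volume (Bad ∪ Nul) := measure_mono hsub
      _ ≤ volume Bad + volume Nul := measure_union_le _ _
      _ ≤ volume (closedBall (0 : C3) (1 / 16)) / 2 + 0 := by
          rw [hNul0]
          gcongr
      _ = _ := by rw [add_zero]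
  have hpos : 0 < volume (closedBall (0 : C3) (1 / 16)) :=
    measure_closedBall_pos _ _ (by norm_num)
  have hfin : volume (closedBall (0 : C3) (1 / 16)) < ⊤ := measure_closedBall_lt_top
  have hlt := ENNReal.half_lt_self hpos.ne' hfin.ne
  exact absurd hle (not_le.2 hlt)

/-- the relation of the recursion -/
def REC_R (d : ℕ → C3) (n : ℕ) (z : ℕ → C3 × ℝ) (w : C3 × ℝ) : Prop :=
  w.1 ∈ REC_S n z ∧ dist w.1 (d n) ≤ infDist (d n) (REC_S n z) + 1 / ((n : ℝ) + 1) ∧
    4 * 2 ^ n ≤ w.2 ∧ ∀ i < n, ‖(z i).1.2 - w.1.2‖ ≤ w.2 * ‖(z i).1.1 - w.1.1‖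

theorem REC_ex (h1 : RPD_stmt) (d : ℕ → C3) (n : ℕ) (z : ℕ → C3 × ℝ)
    (h : ∀ i < n, REC_R d i z (z i)) : ∃ w, REC_R d n z w := by
  have hne : (REC_S n z).Nonempty := by
    apply REC_nonempty h1
    · intro i hi; exact (h i hi).1.1
    · intro i hi; exact (h i hi).2.2.1
  have hlt : infDist (d n) (REC_S n z) < infDist (d n) (REC_S n z) + 1 / ((n : ℝ) + 1) := by
    have : (0 : ℝ) < 1 / ((n : ℝ) + 1) := by positivity
    linarith
  obtain ⟨s, hs, hds⟩ := (infDist_lt_iff hne).1 hlt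
  have hnn : ∀ i ∈ Finset.range n, 0 ≤ ‖(z i).1.2 - s.2‖ / ‖(z i).1.1 - s.1‖ := by
    intro i _; positivity
  refine ⟨(s, 4 * 2 ^ n + ∑ i ∈ Finset.range n, ‖(z i).1.2 - s.2‖ / ‖(z i).1.1 - s.1‖), hs, ?_, ?_, ?_⟩
  · show dist s (d n) ≤ _
    rw [dist_comm]; exact hds.le
  · show (4 * 2 ^ n : ℝ) ≤ 4 * 2 ^ n + _
    have := Finset.sum_nonneg hnn
    linarith
  · intro i hi
    show ‖(z i).1.2 - s.2‖ ≤ (4 * 2 ^ n + ∑ i ∈ Finset.range n, ‖(z i).1.2 - s.2‖ / ‖(z i).1.1 - s.1‖) *
      ‖(z i).1.1 - s.1‖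
    have hne1 : (z i).1.1 - s.1 ≠ 0 := by
      intro h0
      exact (hs.2 i hi).2 (sub_eq_zero.1 h0).symm
    have hpos : 0 < ‖(z i).1.1 - s.1‖ := norm_pos_iff.2 hne1
    have hle := Finset.single_le_sum hnn (Finset.mem_range.2 hi)
    have h4 : (0 : ℝ) ≤ 4 * 2 ^ n := by positivity
    calc ‖(z i).1.2 - s.2‖ = (‖(z i).1.2 - s.2‖ / ‖(z i).1.1 - s.1‖) * ‖(z i).1.1 - s.1‖ := by
          field_simp
      _ ≤ _ := by
          apply mul_le_mul_of_nonneg_right _ hpos.le
          linarith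

theorem REC (h1 : RPD_stmt) : REC_stmt := by
  classical
  let d : ℕ → C3 := fun n => TopologicalSpace.denseSeq C3 (Nat.unpair n).1
  have hd : ∀ (t : C3) (δ : ℝ), 0 < δ → ∀ N : ℕ, ∃ n, N ≤ n ∧ dist (d n) t < δ := by
    intro t δ hδ N
    obtain ⟨k, hk⟩ := (TopologicalSpace.denseRange_denseSeq C3).exists_dist_lt t hδ
    refine ⟨Nat.pair k N, Nat.right_le_pair k N, ?_⟩
    show dist (TopologicalSpace.denseSeq C3 (Nat.unpair (Nat.pair k N)).1) t < δ
    rw [Nat.unpair_pair, dist_comm]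
    exact hk
  obtain ⟨z, hz⟩ := REC_seq (REC_R d)
    (by
      intro n z z' w hzz hR
      have hS := REC_S_congr n z z' hzz
      refine ⟨hS ▸ hR.1, hS ▸ hR.2.1, hR.2.2.1, ?_⟩
      intro i hi
      rw [← hzz i hi]
      exact hR.2.2.2 i hi)
    (REC_ex h1 d)
  refine ⟨fun n => (z n).1, fun n => (z n).2, ?_, ?_, ?_, ?_⟩
  · intro i; exact (hz i).1.1
  · intro i; exact (hz i).2.2.1
  · intro n i
    rcases lt_trichotomy i n with h | h | h
    · exact ((hz n).1.2 i h).1
    · subst h; simp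
    · exact (hz i).2.2.2 n h
  · intro t ht hti
    rw [Metric.mem_closure_range_iff]
    intro ε hε
    by_cases hj : ∃ j, t.1 = (z j).1.1
    · obtain ⟨j, hj⟩ := hj
      refine ⟨j, ?_⟩
      have h2 := hti j
      simp only at h2
      rw [hj, sub_self, norm_zero, mul_zero] at h2
      have h3 : t.2 = (z j).1.2 := sub_eq_zero.1 (norm_le_zero_iff.1 h2)
      have h4 : t = (z j).1 := Prod.ext hj h3
      rw [h4, dist_self]
      exact hε
    · push Not at hj
      have hS : ∀ n, t ∈ REC_S n z := fun n => ⟨ht, fun i _ => ⟨hti i, hj i⟩⟩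
      obtain ⟨N, hN⟩ := exists_nat_one_div_lt (show (0 : ℝ) < ε / 4 by positivity)
      obtain ⟨n, hn, hdn⟩ := hd t (ε / 4) (by positivity) N
      refine ⟨n, ?_⟩
      have h2 : infDist (d n) (REC_S n z) ≤ dist (d n) t := infDist_le_dist_of_mem (hS n)
      have h3 := (hz n).2.1
      have h4 : (1 : ℝ) / ((n : ℝ) + 1) ≤ 1 / ((N : ℝ) + 1) := by
        apply one_div_le_one_div_of_le (by positivity)
        have : (N : ℝ) ≤ n := by exact_mod_cast hn
        linarith
      have h5 : dist t (z n).1 ≤ dist t (d n) + dist (d n) (z n).1 := dist_triangle _ _ _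
      rw [dist_comm t (d n), dist_comm (d n) (z n).1] at h5
      linarith

end Pool.Agent.SC
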